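import Pool.Agent.Lib_helper68.LEV.Fin2

/-!
# Central values of weight two newforms of prime level: the exponent `1/2`

Let `N` be a prime and `H₂⁺(N)` the set of normalised Hecke eigen-newforms `f` of weight `2` for
`Γ₀(N)` with even functional equation, counted with natural (equal) weights.  Then, as `N → ∞`
through primes,

* for every `A < 1/2`: `p_A(N) → 0`, i.e. almost all central values are at most `(log N)^{-A}`;
* for every real `V`: the proportion of `f ∈ H₂⁺(N)` with
  `L(1/2, f) ≥ (log N)^{-1/2} exp(V √(log log N))` is at most `P(Z ≥ V) + o(1)`, `Z` a standard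
  normal variable (the upper half of the Keating-Snaith conjecture for this family);
* hence `limsup p_A(N) ≤ 1/2` for every `A ≤ 1/2`: a constant `A` as asked for must be `> 1/2`;
* `#H₂⁺(N) ~ N/24`.

Authors of the blocks (team): helper3, helper6, helper7, helper8, helper14, helper18, helper21,
helper22, helper24, helper31, helper32, helper35, helper38, helper41, helper47, helper50, helper58,
helper67, helper68, helper70, helper72, helper76, helper80, helper83, helper89, helper96, helper99;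
the exact identity for the mollified central value is due to helper89, the lower bound for the
dimension (`Lib_helper41/DIMF`) is by helper41 and coauthors, level one models of several blocks by
helper98.
-/

namespace Pool.Agent.Results.MP_cc4f83_nt.CentralValueThreshold

open Complex MeasureTheory ProbabilityTheory
open scoped MatrixGroups

/-- The space of cusp forms of weight `2` for `Γ₀(N)`. -/
abbrev S2 (N : ℕ) : Type :=
  CuspForm (CongruenceSubgroup.Gamma0 N : Subgroup (GL (Fin 2) ℝ)) 2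

/-- The Fourier coefficients `a(n)`, `f(z) = ∑ a(n) e^{2πinz}`. -/
noncomputable def coeff {N : ℕ} (f : S2 N) (n : ℕ) : ℂ := (UpperHalfPlane.qExpansion 1 f).coeff n

/-- `f` is a normalised Hecke eigen-newform of prime level `N` and weight `2`: `a(1) = 1` and the
coefficients satisfy all Hecke relations.  (All forms of prime level and weight `2` are new.) -/
structure IsNewform {N : ℕ} (f : S2 N) : Prop where
  one : coeff f 1 = 1
  mul : ∀ m n : ℕ, m.Coprime n → coeff f (m * n) = coeff f m * coeff f n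
  hecke : ∀ p r : ℕ, p.Prime → p ≠ N →
    coeff f (p ^ (r + 2)) = coeff f p * coeff f (p ^ (r + 1)) - (p : ℂ) * coeff f (p ^ r)
  level : ∀ r : ℕ, coeff f (N ^ (r + 1)) = coeff f N ^ (r + 1)

/-- The L-function `∑ a(n) n^{-s}` (Mathlib's entire continuation), classical normalisation: the
centre is `s = 1`, and `L(1/2, f)` in the analytic normalisation is `L f 1`. -/
noncomputable def L {N : ℕ} [Fact N.Prime] (f : S2 N) (s : ℂ) : ℂ :=
  ModularForm.L (k := 2) two_pos f s

/-- The completed L-function has the functional equation with sign `+1`. -/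
def EvenFE {N : ℕ} [Fact N.Prime] (f : S2 N) : Prop := ∀ s : ℂ, 0 < s.re → s.re < 2 →
  ((Real.sqrt N / (2 * Real.pi) : ℝ) : ℂ) ^ s * Complex.Gamma s * L f s =
    ((Real.sqrt N / (2 * Real.pi) : ℝ) : ℂ) ^ (2 - s) * Complex.Gamma (2 - s) * L f (2 - s)

/-- The set `H₂⁺(N)`. -/
def H (N : ℕ) [Fact N.Prime] : Set (S2 N) := {f | IsNewform f ∧ EvenFE f}

/-- The proportion of the `f ∈ H₂⁺(N)` with the property `P`. -/
noncomputable def prop (N : ℕ) [Fact N.Prime] (P : S2 N → Prop) : ℝ :=
  ({f : S2 N | f ∈ H N ∧ P f}.ncard : ℝ) / ((H N).ncard : ℝ)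

/-- `p_A(N)`: the proportion of the `f ∈ H₂⁺(N)` with `L(1/2, f) > (log N)^{-A}`. -/
noncomputable def pA (A : ℝ) (N : ℕ) [Fact N.Prime] : ℝ :=
  prop N fun f => Real.log N ^ (-A) < (L f 1).re

theorem H_eq (N : ℕ) [Fact N.Prime] : H N = LEV.HE N := by
  ext f
  constructor
  · rintro ⟨h, h'⟩
    exact ⟨⟨h.one, h.mul, h.hecke, h.level⟩, h'⟩
  · rintro ⟨h, h'⟩
    exact ⟨⟨h.one, h.mul, h.hecke, h.level⟩, h'⟩

theorem H_finite (N : ℕ) [Fact N.Prime] : (H N).Finite := by
  rw [H_eq]
  exact LEV.HE_fin N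

theorem H_pos : ∃ N₀ : ℕ, ∀ (N : ℕ) [Fact N.Prime], N₀ ≤ N → (0 : ℝ) < ((H N).ncard : ℝ) := by
  obtain ⟨N₀, h⟩ := LEV.even_low' (1 / 48) (by norm_num)
  refine ⟨N₀, fun N _ hN => ?_⟩
  have h1 := h N hN
  rw [H_eq]
  have h2 : (0 : ℝ) < N := by exact_mod_cast (Fact.out : N.Prime).pos
  linarith

theorem gauss_half : (gaussianReal 0 1).real (Set.Ici 0) = 1 / 2 := by
  have : NullSingletonClass (gaussianReal 0 1) := nullSingletonClass_gaussianReal (by norm_num)
  have h1 : (gaussianReal 0 1).real (Set.Ici 0) = (gaussianReal 0 1).real (Set.Iic 0) := by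
    have h2 : (gaussianReal 0 1).map (fun x => -x) = gaussianReal 0 1 := by
      rw [gaussianReal_map_neg, neg_zero]
    conv_lhs => rw [← h2]
    rw [map_measureReal_apply measurable_neg measurableSet_Ici]
    congr 1
    ext x
    simp
  have h3 : (gaussianReal 0 1).real (Set.Iic 0) + (gaussianReal 0 1).real (Set.Iic 0)ᶜ = 1 :=
    probReal_add_probReal_compl measurableSet_Iic
  have h4 : (gaussianReal 0 1).real (Set.Iic 0)ᶜ = (gaussianReal 0 1).real (Set.Ici 0) := by
    rw [Set.compl_Iic, measureReal_def, measureReal_def, Ioi_ae_eq_Ici.measure_eq]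
  rw [h4, ← h1] at h3
  linarith

theorem result :
    (∀ A : ℝ, A < 1 / 2 → ∀ ε : ℝ, 0 < ε → ∃ N₀ : ℕ, ∀ (N : ℕ) [Fact N.Prime], N₀ ≤ N →
      pA A N ≤ ε) ∧
    (∀ V ε : ℝ, 0 < ε → ∃ N₀ : ℕ, ∀ (N : ℕ) [Fact N.Prime], N₀ ≤ N →
      prop N (fun f => Real.log N ^ (-(1 / 2) : ℝ) *
        Real.exp (V * Real.sqrt (Real.log (Real.log N))) ≤ (L f 1).re) ≤
        (gaussianReal 0 1).real (Set.Ici V) + ε) ∧
    (∀ A : ℝ, A ≤ 1 / 2 → ∀ ε : ℝ, 0 < ε → ∃ N₀ : ℕ, ∀ (N : ℕ) [Fact N.Prime], N₀ ≤ N →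
      pA A N ≤ 1 / 2 + ε) ∧
    (∀ ε : ℝ, 0 < ε → ∃ N₀ : ℕ, ∀ (N : ℕ) [Fact N.Prime], N₀ ≤ N →
      |((H N).ncard : ℝ) / N - 1 / 24| ≤ ε) := by
  obtain ⟨N₁, hpos⟩ := H_pos
  have hB : ∀ V ε : ℝ, 0 < ε → ∃ N₀ : ℕ, ∀ (N : ℕ) [Fact N.Prime], N₀ ≤ N →
      prop N (fun f => Real.log N ^ (-(1 / 2) : ℝ) *
        Real.exp (V * Real.sqrt (Real.log (Real.log N))) ≤ (L f 1).re) ≤
        (gaussianReal 0 1).real (Set.Ici V) + ε := by
    intro V ε hε
    obtain ⟨N₀, h⟩ := LEV.fin_clt V hε
    refine ⟨max (max N₀ N₁) 3, fun N _ hN => ?_⟩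
    have h1 := h N (((le_max_left _ _).trans (le_max_left _ _)).trans hN)
    have h2 := hpos N (((le_max_right _ _).trans (le_max_left _ _)).trans hN)
    have hN3 : 3 ≤ N := (le_max_right _ _).trans hN
    have hlog : 0 < Real.log N := Real.log_pos (by exact_mod_cast (by omega : 1 < N))
    have he : Real.log N ^ (-(1 / 2) : ℝ) * Real.exp (V * Real.sqrt (Real.log (Real.log N))) =
        Real.exp (-Real.log (Real.log N) / 2 + V * Real.sqrt (Real.log (Real.log N))) := by
      rw [Real.exp_add, Real.rpow_def_of_pos hlog]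
      congr 2
      ring
    unfold prop
    rw [div_le_iff₀ h2]
    simp only [he]
    rw [H_eq]
    exact h1
  refine ⟨?_, hB, ?_, ?_⟩
  · intro A hA ε hε
    obtain ⟨N₀, h⟩ := LEV.fin_small hA hε
    refine ⟨max N₀ N₁, fun N _ hN => ?_⟩
    have h1 := h N ((le_max_left _ _).trans hN)
    have h2 := hpos N ((le_max_right _ _).trans hN)
    unfold pA prop
    rw [div_le_iff₀ h2, H_eq]
    exact h1
  · intro A hA ε hε
    obtain ⟨N₀, h⟩ := hB 0 ε hε
    refine ⟨max (max N₀ N₁) 3, fun N _ hN => ?_⟩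
    have h1 := h N (((le_max_left _ _).trans (le_max_left _ _)).trans hN)
    have h2 := hpos N (((le_max_right _ _).trans (le_max_left _ _)).trans hN)
    have hN3 : 3 ≤ N := (le_max_right _ _).trans hN
    rw [gauss_half] at h1
    refine le_trans ?_ h1
    unfold pA prop
    rw [div_le_div_iff_of_pos_right h2]
    norm_cast
    apply Set.ncard_le_ncard _ ((H_finite N).subset fun f hf => hf.1)
    rintro f ⟨hf, hf2⟩
    refine ⟨hf, ?_⟩
    have hlog : 1 ≤ Real.log N := by
      rw [Real.le_log_iff_exp_le (by exact_mod_cast (by omega : 0 < N))]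
      have h5 : Real.exp 1 < 3 := Real.exp_one_lt_three
      have h6 : (3 : ℝ) ≤ N := by exact_mod_cast hN3
      linarith
    have h7 : Real.log N ^ (-(1 / 2) : ℝ) ≤ Real.log N ^ (-A) :=
      Real.rpow_le_rpow_of_exponent_le hlog (by linarith)
    rw [zero_mul, Real.exp_zero, mul_one]
    exact h7.trans hf2.le
  · intro ε hε
    obtain ⟨N₂, h2⟩ := LEV.even_low' ε hε
    obtain ⟨N₃, h3⟩ := LEV.even_up hε
    refine ⟨max N₂ N₃, fun N _ hN => ?_⟩
    have h4 := h2 N ((le_max_left _ _).trans hN)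
    have h5 := h3 N ((le_max_right _ _).trans hN)
    have hN0 : (0 : ℝ) < N := by exact_mod_cast (Fact.out : N.Prime).pos
    rw [← H_eq] at h4 h5
    rw [abs_le]
    constructor
    · have : 1 / 24 - ε ≤ ((H N).ncard : ℝ) / N := by rw [le_div_iff₀ hN0]; exact h4
      linarith
    · have : ((H N).ncard : ℝ) / N ≤ 1 / 24 + ε := by rw [div_le_iff₀ hN0]; exact h5
      linarith

end Pool.Agent.Results.MP_cc4f83_nt.CentralValueThreshold
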