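import Pool.Agent.Lib_helper68.LEV.Fin2
import Pool.Agent.Lib_helper68.LSPV.LVV
import Pool.Agent.Lib_helper68.LSP2.GLW
import Pool.Agent.Lib_helper41.LSP25.Rng

/-!
# More than half of the central values of weight two newforms are large at every prime level, if
there are no Siegel zeros

Let `N` be a prime and `H₂⁺(N)` the set of normalised Hecke eigen-newforms `f` of weight `2` for
`Γ₀(N)` with even functional equation, counted with natural (equal) weights, and `p_A(N)` the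
proportion of the `f ∈ H₂⁺(N)` with `L(1/2, f) > (log N)^{-A}`.

* If there are no Siegel zeros then there is `c > 0` such that for every `A > 1/2` one has
  `p_A(N) ≥ 1/2 + c` for every large prime `N` (the range of `A` is optimal).  This is the converse
  of a theorem of Iwaniec and Sarnak.
* Level by level: for all `λ, κ > 0` there is `c > 0` such that `p_A(N) ≥ 1/2 + c`, `A > 1/2`, for
  every large prime `N` for which no real primitive character of conductor at most `N^κ` has a real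
  zero `β > 1 - λ / log N`.
* Distribution form: for these `N` and every real `V` the proportion of the `f ∈ H₂⁺(N)` with
  `L(1/2, f) ≥ (log N)^{-1/2} exp(V √(log log N))` is at least `(1/2 + c) P(Z ≥ V) - o(1)`, `Z` a
  standard normal variable.
* Unconditionally for every `B` there is `c > 0` such that `p_A(N) ≥ 1/2 + c`, `A > 1/2`, for all
  primes of arbitrarily large intervals `[Y, Y^B]`.

Authors of the blocks (team): helper14 15 16 19 31 41 46 53 68 71 84 97 98 (off-diagonal at every prime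
level, main term, assembly), helper5 18 21 41 93 95 (balanced windows), helper32 and co-authors
(nonnegativity of the central values) and the authors of the libraries LSPF, LSPM, LSPI, GA, GAB,
GAF, KSLF, KSL, LVB, LVBF, KSN, LEV and FG (see HalfProportion).
-/

namespace Pool.Agent.Results.MP_cc4f83_nt.EveryLevel

open Complex MeasureTheory ProbabilityTheory
open scoped MatrixGroups

/-- The space of cusp forms of weight `2` for `Γ₀(N)`. -/
abbrev S2 (N : ℕ) : Type :=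
  CuspForm (CongruenceSubgroup.Gamma0 N : Subgroup (GL (Fin 2) ℝ)) 2

/-- The Fourier coefficients `a(n)`, `f(z) = ∑ a(n) e^{2πinz}`. -/
noncomputable def coeff {N : ℕ} (f : S2 N) (n : ℕ) : ℂ := (UpperHalfPlane.qExpansion 1 f).coeff n

/-- `f` is a normalised Hecke eigen-newform of prime level `N` and weight `2`: `a(1) = 1` and the
coefficients satisfy all Hecke relations.  (All forms of prime level and weight `2` are new.) -/
structure IsNewform {N : ℕ} (f : S2 N) : Prop where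
  one : coeff f 1 = 1
  mul : ∀ m n : ℕ, m.Coprime n → coeff f (m * n) = coeff f m * coeff f n
  hecke : ∀ p r : ℕ, p.Prime → p ≠ N →
    coeff f (p ^ (r + 2)) = coeff f p * coeff f (p ^ (r + 1)) - (p : ℂ) * coeff f (p ^ r)
  level : ∀ r : ℕ, coeff f (N ^ (r + 1)) = coeff f N ^ (r + 1)

/-- The L-function `∑ a(n) n^{-s}` (Mathlib's entire continuation), classical normalisation: the
centre is `s = 1`, and `L(1/2, f)` in the analytic normalisation is `L f 1`. -/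
noncomputable def L {N : ℕ} [Fact N.Prime] (f : S2 N) (s : ℂ) : ℂ :=
  ModularForm.L (k := 2) two_pos f s

/-- The completed L-function has the functional equation with sign `+1`. -/
def EvenFE {N : ℕ} [Fact N.Prime] (f : S2 N) : Prop := ∀ s : ℂ, 0 < s.re → s.re < 2 →
  ((Real.sqrt N / (2 * Real.pi) : ℝ) : ℂ) ^ s * Complex.Gamma s * L f s =
    ((Real.sqrt N / (2 * Real.pi) : ℝ) : ℂ) ^ (2 - s) * Complex.Gamma (2 - s) * L f (2 - s)

/-- The set `H₂⁺(N)`. -/
def H (N : ℕ) [Fact N.Prime] : Set (S2 N) := {f | IsNewform f ∧ EvenFE f}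

/-- The proportion of the `f ∈ H₂⁺(N)` with the property `P`. -/
noncomputable def prop (N : ℕ) [Fact N.Prime] (P : S2 N → Prop) : ℝ :=
  ({f : S2 N | f ∈ H N ∧ P f}.ncard : ℝ) / ((H N).ncard : ℝ)

/-- `p_A(N)`: the proportion of the `f ∈ H₂⁺(N)` with `L(1/2, f) > (log N)^{-A}`. -/
noncomputable def pA (A : ℝ) (N : ℕ) [Fact N.Prime] : ℝ :=
  prop N fun f => Real.log N ^ (-A) < (L f 1).re

/-- No real primitive character of conductor at most `D` has a real zero `β > 1 - w`. -/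
def Free (w D : ℝ) : Prop :=
  ∀ (q : ℕ) [NeZero q], 1 < q → (q : ℝ) ≤ D → ∀ χ : DirichletCharacter ℂ q, χ.IsPrimitive →
    χ ^ 2 = 1 → ∀ β : ℝ, 1 - w < β → DirichletCharacter.LFunction χ (β : ℂ) ≠ 0

/-- There are no Siegel zeros: there is `c > 0` such that `L(s, χ) ≠ 0` for every real primitive
character `χ` of conductor `q` and every real `s > 1 - c / log q`. -/
def NoSiegelZeros : Prop :=
  ∃ c : ℝ, 0 < c ∧ ∀ (q : ℕ) [NeZero q] (χ : DirichletCharacter ℂ q), χ.IsPrimitive → χ ^ 2 = 1 →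
    ∀ s : ℝ, 1 - c / Real.log q < s → DirichletCharacter.LFunction χ (s : ℂ) ≠ 0

theorem H_eq (N : ℕ) [Fact N.Prime] : H N = LEV.HE N := by
  ext f
  constructor
  · rintro ⟨h, h'⟩
    exact ⟨⟨h.one, h.mul, h.hecke, h.level⟩, h'⟩
  · rintro ⟨h, h'⟩
    exact ⟨⟨h.one, h.mul, h.hecke, h.level⟩, h'⟩

theorem H_finite (N : ℕ) [Fact N.Prime] : (H N).Finite := by
  rw [H_eq]
  exact LEV.HE_fin N

theorem H_pos : ∃ N₀ : ℕ, ∀ (N : ℕ) [Fact N.Prime], N₀ ≤ N → (0 : ℝ) < ((H N).ncard : ℝ) := by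
  obtain ⟨N₀, h⟩ := LEV.even_low' (1 / 48) (by norm_num)
  refine ⟨N₀, fun N _ hN => ?_⟩
  have h1 := h N hN
  rw [H_eq]
  have h2 : (0 : ℝ) < N := by exact_mod_cast (Fact.out : N.Prime).pos
  linarith

theorem prop_mono {N : ℕ} [Fact N.Prime] {P Q : S2 N → Prop} (h : ∀ f ∈ H N, P f → Q f) :
    prop N P ≤ prop N Q := by
  unfold prop
  apply div_le_div_of_nonneg_right _ (Nat.cast_nonneg _)
  norm_cast
  apply Set.ncard_le_ncard _ ((H_finite N).subset fun f hf => hf.1)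
  rintro f ⟨h1, h2⟩
  exact ⟨h1, h f h1 h2⟩

theorem free_good {w D : ℝ} (h : Free w D) : GA.Free w ⌊D⌋₊ := by
  intro q hq χ hχ h2 β hβ
  rw [Finset.mem_Icc] at hq
  have hq0 : q ≠ 0 := by omega
  have : NeZero q := ⟨hq0⟩
  have h5 : χ.IsPrimitive ∧ χ ≠ 1 := by
    have h6 := hχ
    unfold GA.Prm at h6
    simp only [Finset.mem_filter] at h6
    exact h6.2
  obtain ⟨h3, h4⟩ := h5
  have hq1 : 1 < q := by
    rcases Nat.lt_or_ge 1 q with h6 | h6
    · exact h6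
    · exfalso
      have h7 : q = 1 := by omega
      subst h7
      exact h4 (Subsingleton.elim _ _)
  unfold GA.LF at hβ
  rw [dif_neg hq0] at hβ
  by_contra hlt
  push Not at hlt
  exact h q hq1 ((Nat.le_floor_iff' hq0).1 hq.2) χ h3 h2 β hlt hβ

/-- The lower bounds: for every real `V` the proportion of the `f ∈ H₂⁺(N)` with
`L(1/2, f) ≥ (log N)^{-1/2} exp(V √(log log N))` is at least `(1/2 + c) P(Z ≥ V) - o(1)`, and
`p_A(N) ≥ 1/2 + c` for every `A > 1/2` and every large `N`; here `N → ∞` through the primes with the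
property `Q`. -/
def Bounds (c : ℝ) (Q : ℕ → Prop) : Prop :=
  (∀ V ε : ℝ, 0 < ε → ∃ N₀ : ℕ, ∀ (N : ℕ) [Fact N.Prime], N₀ ≤ N → Q N →
    (1 / 2 + c) * (gaussianReal 0 1).real (Set.Ici V) - ε ≤
      prop N (fun f => Real.log N ^ (-(1 / 2) : ℝ) *
        Real.exp (V * Real.sqrt (Real.log (Real.log N))) ≤ (L f 1).re)) ∧
  (∀ A : ℝ, 1 / 2 < A → ∃ N₀ : ℕ, ∀ (N : ℕ) [Fact N.Prime], N₀ ≤ N → Q N → 1 / 2 + c ≤ pA A N)

theorem Bounds.mono {c : ℝ} {Q Q' : ℕ → Prop} (h : Bounds c Q) {N₁ : ℕ}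
    (hQ : ∀ N, N₁ ≤ N → Q' N → Q N) : Bounds c Q' := by
  refine ⟨fun V ε hε => ?_, fun A hA => ?_⟩
  · obtain ⟨N₀, h0⟩ := h.1 V ε hε
    exact ⟨N₀ + N₁, fun N _ hN hq => h0 N (by omega) (hQ N (by omega) hq)⟩
  · obtain ⟨N₀, h0⟩ := h.2 A hA
    exact ⟨N₀ + N₁, fun N _ hN hq => h0 N (by omega) (hQ N (by omega) hq)⟩

/-- from numbers of forms to proportions -/
theorem dist_prop {w : ℝ} (hw : 0 ≤ w) (hw1 : w ≤ 1) {ε : ℝ} (hε : 0 < ε) : ∃ (e : ℝ) (N₀ : ℕ),
    0 < e ∧ ∀ (N : ℕ) [Fact N.Prime], N₀ ≤ N → ∀ V : ℝ,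
      (N : ℝ) / 24 * (w - e) ≤ ({f : S2 N | (LEV.IsNew f ∧ LEV.co f N = 1) ∧
        Real.exp (-Real.log (Real.log N) / 2 + V * Real.sqrt (Real.log (Real.log N))) ≤
          ‖LEV.Lh f‖}.ncard : ℝ) →
      w - ε ≤ prop N (fun f => Real.log N ^ (-(1 / 2) : ℝ) *
        Real.exp (V * Real.sqrt (Real.log (Real.log N))) ≤ (L f 1).re) := by
  obtain ⟨e, he0, he1, he2⟩ : ∃ e : ℝ, 0 < e ∧ e ≤ ε / 100 ∧ e ≤ 1 / 100 :=
    ⟨min ε 1 / 100, by positivity, by have := min_le_left ε 1; linarith,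
      by have := min_le_right ε 1; linarith⟩
  obtain ⟨N₂, h2⟩ := LEV.even_up he0
  obtain ⟨N₃, h3⟩ := H_pos
  refine ⟨e, N₂ + N₃ + 3, he0, fun N _ hN V h4 => ?_⟩
  have h5 := h2 N (by omega)
  have h6 := h3 N (by omega)
  have hN3 : 3 ≤ N := by omega
  have hN0 : (0 : ℝ) < N := by exact_mod_cast (Fact.out : N.Prime).pos
  have hlog : 0 < Real.log N := Real.log_pos (by exact_mod_cast (by omega : 1 < N))
  have hexp : Real.log N ^ (-(1 / 2) : ℝ) * Real.exp (V * Real.sqrt (Real.log (Real.log N))) =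
      Real.exp (-Real.log (Real.log N) / 2 + V * Real.sqrt (Real.log (Real.log N))) := by
    rw [Real.exp_add, Real.rpow_def_of_pos hlog]
    congr 2
    ring
  have hset : {f : S2 N | f ∈ H N ∧ Real.log N ^ (-(1 / 2) : ℝ) *
      Real.exp (V * Real.sqrt (Real.log (Real.log N))) ≤ (L f 1).re} =
      {f : S2 N | (LEV.IsNew f ∧ LEV.co f N = 1) ∧ Real.exp (-Real.log (Real.log N) / 2 +
        V * Real.sqrt (Real.log (Real.log N))) ≤ ‖LEV.Lh f‖} := by
    ext f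
    rw [Set.mem_setOf_eq, Set.mem_setOf_eq, H_eq, LEV.HE_eq, hexp]
    refine and_congr_right fun h7 => ?_
    rw [LSP.Lh_norm hN3 h7.1 h7.2]
    rfl
  unfold prop
  rw [le_div_iff₀ h6, hset]
  rw [← H_eq] at h5
  by_cases h7 : w - ε ≤ 0
  · have h8 : (w - ε) * ((H N).ncard : ℝ) ≤ 0 :=
      mul_nonpos_of_nonpos_of_nonneg h7 h6.le
    exact h8.trans (Nat.cast_nonneg _)
  · push Not at h7
    have h8 : (w - ε) * ((H N).ncard : ℝ) ≤ (w - ε) * ((1 / 24 + e) * N) :=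
      mul_le_mul_of_nonneg_left h5 h7.le
    have h9 : (w - ε) * (1 / 24 + e) ≤ 1 / 24 * (w - e) := by
      nlinarith
    have h10 : (w - ε) * ((1 / 24 + e) * N) ≤ (N : ℝ) / 24 * (w - e) := by
      calc _ = ((w - ε) * (1 / 24 + e)) * N := by ring
        _ ≤ (1 / 24 * (w - e)) * N := mul_le_mul_of_nonneg_right h9 hN0.le
        _ = _ := by ring
    linarith

/-- the bounds at the levels without a strongly exceptional zero -/
theorem levels {lam κ : ℝ} (hlam : 0 < lam) (hκ : 0 < κ) : ∃ c : ℝ, 0 < c ∧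
    Bounds c (fun N => GA.Free (lam / Real.log N) ⌊(N : ℝ) ^ κ⌋₊) := by
  obtain ⟨c, hc0, hc1, h⟩ := LSP.dist_free hlam hκ
  have hD : ∀ V ε : ℝ, 0 < ε → ∃ N₀ : ℕ, ∀ (N : ℕ) [Fact N.Prime], N₀ ≤ N →
      GA.Free (lam / Real.log N) ⌊(N : ℝ) ^ κ⌋₊ →
      (1 / 2 + c) * (gaussianReal 0 1).real (Set.Ici V) - ε ≤
        prop N (fun f => Real.log N ^ (-(1 / 2) : ℝ) *
          Real.exp (V * Real.sqrt (Real.log (Real.log N))) ≤ (L f 1).re) := by
    intro V ε hε
    have hg0 : 0 ≤ (gaussianReal 0 1).real (Set.Ici V) := measureReal_nonneg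
    have hg1 : (gaussianReal 0 1).real (Set.Ici V) ≤ 1 := measureReal_le_one
    obtain ⟨e, N₁, he, h1⟩ := dist_prop (w := (1 / 2 + c) * (gaussianReal 0 1).real (Set.Ici V))
      (by positivity) (by nlinarith) hε
    obtain ⟨N₂, h2⟩ := h V e he
    exact ⟨N₁ + N₂, fun N _ hN hf => h1 N (by omega) V (h2 N (by omega) hf)⟩
  refine ⟨c / 2, by positivity, fun V ε hε => ?_, fun A hA => ?_⟩
  · obtain ⟨N₀, h0⟩ := hD V ε hε
    refine ⟨N₀, fun N _ hN hf => le_trans ?_ (h0 N hN hf)⟩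
    have hg0 : 0 ≤ (gaussianReal 0 1).real (Set.Ici V) := measureReal_nonneg
    nlinarith
  · obtain ⟨V, hV⟩ := LSP.gauss_low (ε := c / 4) (by positivity)
    obtain ⟨N₁, h1⟩ := hD V (c / 4) (by positivity)
    obtain ⟨N₂, h2⟩ := LSP.thr_low V hA
    refine ⟨N₁ + N₂, fun N _ hN hf => ?_⟩
    have h3 := h1 N (by omega) hf
    have h4 := h2 N (by omega)
    have h5 : prop N (fun f => Real.log N ^ (-(1 / 2) : ℝ) *
        Real.exp (V * Real.sqrt (Real.log (Real.log N))) ≤ (L f 1).re) ≤ pA A N :=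
      prop_mono fun f _ h => h4.trans_le h
    have h6 : (1 / 2 + c) * (1 - c / 4) ≤
        (1 / 2 + c) * (gaussianReal 0 1).real (Set.Ici V) :=
      mul_le_mul_of_nonneg_left hV (by positivity)
    nlinarith

/-- every prime of arbitrarily large intervals `[Y, Y ^ B]` -/
theorem intervals {B : ℝ} (hB : 1 ≤ B) : ∃ c : ℝ, 0 < c ∧ ∀ A : ℝ, 1 / 2 < A → ∀ Y₀ : ℝ,
    ∃ Y : ℝ, Y₀ ≤ Y ∧ ∀ (N : ℕ) [Fact N.Prime], Y ≤ N → (N : ℝ) ≤ Y ^ B →
      1 / 2 + c ≤ pA A N := by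
  obtain ⟨cL, hcL, hfree⟩ := GA.free_ranges
  obtain ⟨c, hc, -, h⟩ := levels (lam := cL / (2 * B)) (κ := 1) (by positivity) one_pos
  refine ⟨c, hc, fun A hA Y₀ => ?_⟩
  obtain ⟨N₀, hN₀⟩ := h A hA
  have h1 : cL / (2 * B) * 1 * B < cL := by
    calc cL / (2 * B) * 1 * B = cL / 2 := by field_simp
      _ < cL := by linarith
  obtain ⟨Y, hY1, -, hY⟩ := hfree (cL / (2 * B)) 1 B (by positivity) one_pos hB h1 (max Y₀ N₀)
  refine ⟨Y, (le_max_left _ _).trans hY1, fun N _ hN hNB => ?_⟩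
  refine hN₀ N ?_ (hY N hN hNB)
  exact_mod_cast ((le_max_right _ _).trans hY1).trans hN

/-- without Siegel zeros there is no exceptional zero -/
theorem free_of_no_siegel (h : NoSiegelZeros) : ∃ c : ℝ, 0 < c ∧ ∀ N : ℕ, 3 ≤ N →
    Free (c / Real.log N) ((N : ℝ) ^ (1 : ℝ)) := by
  obtain ⟨c, hc, h⟩ := h
  refine ⟨c, hc, fun N hN q _ hq1 hq χ h1 h3 β hβ => ?_⟩
  have h4 : (1 : ℝ) < q := by exact_mod_cast hq1
  have hN3 : (3 : ℝ) ≤ N := by exact_mod_cast hN
  have h5 : 0 < Real.log q := Real.log_pos h4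
  have h6 : Real.log q ≤ Real.log N := by
    apply Real.log_le_log (by linarith)
    rwa [Real.rpow_one] at hq
  have h7 : c / Real.log N ≤ c / Real.log q := div_le_div_of_nonneg_left hc.le h5 h6
  exact h q χ h1 h3 β (by linarith)

theorem result :
    (∀ lam κ : ℝ, 0 < lam → 0 < κ →
      ∃ c : ℝ, 0 < c ∧ Bounds c (fun N => Free (lam / Real.log N) ((N : ℝ) ^ κ))) ∧
    (NoSiegelZeros → ∃ c : ℝ, 0 < c ∧ Bounds c (fun _ => True)) ∧
    (∀ B : ℝ, 1 ≤ B → ∃ c : ℝ, 0 < c ∧ ∀ A : ℝ, 1 / 2 < A → ∀ Y₀ : ℝ, ∃ Y : ℝ, Y₀ ≤ Y ∧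
      ∀ (N : ℕ) [Fact N.Prime], Y ≤ N → (N : ℝ) ≤ Y ^ B → 1 / 2 + c ≤ pA A N) := by
  refine ⟨fun lam κ hlam hκ => ?_, fun hns => ?_, fun B hB => intervals hB⟩
  · obtain ⟨c, hc, h⟩ := levels hlam hκ
    exact ⟨c, hc, h.mono (N₁ := 0) fun N _ hf => free_good hf⟩
  · obtain ⟨c₁, hc₁, hfree⟩ := free_of_no_siegel hns
    obtain ⟨c, hc, h⟩ := levels hc₁ one_pos
    exact ⟨c, hc, h.mono (N₁ := 3) fun N hN _ => free_good (hfree N hN)⟩

end Pool.Agent.Results.MP_cc4f83_nt.EveryLevel
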