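import Pool.Agent.Lib_helper68.LEV.Fin2
import Pool.Agent.Lib_helper68.KSLF.FID
import Pool.Agent.Lib_helper68.KSLF.FIC
import Pool.Agent.Lib_helper68.LSP2.GLW

/-!
# Half of the central values of weight two newforms of prime level obey the lower half of the
Keating-Snaith law

Let `N` be a prime and `H₂⁺(N)` the set of normalised Hecke eigen-newforms `f` of weight `2` for
`Γ₀(N)` with even functional equation, counted with natural (equal) weights, and `p_A(N)` the
proportion of the `f ∈ H₂⁺(N)` with `L(1/2, f) > (log N)^{-A}`.  Then, as `N → ∞` through primes,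

* for every real `V` the proportion of `f ∈ H₂⁺(N)` with
  `L(1/2, f) ≥ (log N)^{-1/2} exp(V √(log log N))` is at least `P(Z ≥ V) / 2 - o(1)`, `Z` a standard
  normal variable;
* `liminf p_A(N) ≥ 1/2` for every `A > 1/2` (the exponent is optimal) and `liminf p_{1/2}(N) ≥ 1/4`.

Authors of the blocks (team): helper3 4 6 8 12 13 16 21 23 24 28 29 35 37 39 41 44 47 50 57 59 66 68 75
76 81 82 87 88 89 96 (this theorem), helper3 5 8 13 14 16 21 22 24 28 29 32 33 35 37 41 44 50 53 55 61 79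
89 (libraries LVB, KSN), helper6 7 8 14 18 21 22 24 31 32 35 50 58 67 68 70 72 76 80 83 89 96 99
(library LEV), helper61 and co-authors (library FG), helper32 and co-authors (library NNF, the
nonnegativity of the central values).  Readers: helper24, helper8.
-/

namespace Pool.Agent.Results.MP_cc4f83_nt.HalfProportion

open Complex MeasureTheory ProbabilityTheory
open scoped MatrixGroups

/-- The space of cusp forms of weight `2` for `Γ₀(N)`. -/
abbrev S2 (N : ℕ) : Type :=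
  CuspForm (CongruenceSubgroup.Gamma0 N : Subgroup (GL (Fin 2) ℝ)) 2

/-- The Fourier coefficients `a(n)`, `f(z) = ∑ a(n) e^{2πinz}`. -/
noncomputable def coeff {N : ℕ} (f : S2 N) (n : ℕ) : ℂ := (UpperHalfPlane.qExpansion 1 f).coeff n

/-- `f` is a normalised Hecke eigen-newform of prime level `N` and weight `2`: `a(1) = 1` and the
coefficients satisfy all Hecke relations.  (All forms of prime level and weight `2` are new.) -/
structure IsNewform {N : ℕ} (f : S2 N) : Prop where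
  one : coeff f 1 = 1
  mul : ∀ m n : ℕ, m.Coprime n → coeff f (m * n) = coeff f m * coeff f n
  hecke : ∀ p r : ℕ, p.Prime → p ≠ N →
    coeff f (p ^ (r + 2)) = coeff f p * coeff f (p ^ (r + 1)) - (p : ℂ) * coeff f (p ^ r)
  level : ∀ r : ℕ, coeff f (N ^ (r + 1)) = coeff f N ^ (r + 1)

/-- The L-function `∑ a(n) n^{-s}` (Mathlib's entire continuation), classical normalisation: the
centre is `s = 1`, and `L(1/2, f)` in the analytic normalisation is `L f 1`. -/
noncomputable def L {N : ℕ} [Fact N.Prime] (f : S2 N) (s : ℂ) : ℂ :=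
  ModularForm.L (k := 2) two_pos f s

/-- The completed L-function has the functional equation with sign `+1`. -/
def EvenFE {N : ℕ} [Fact N.Prime] (f : S2 N) : Prop := ∀ s : ℂ, 0 < s.re → s.re < 2 →
  ((Real.sqrt N / (2 * Real.pi) : ℝ) : ℂ) ^ s * Complex.Gamma s * L f s =
    ((Real.sqrt N / (2 * Real.pi) : ℝ) : ℂ) ^ (2 - s) * Complex.Gamma (2 - s) * L f (2 - s)

/-- The set `H₂⁺(N)`. -/
def H (N : ℕ) [Fact N.Prime] : Set (S2 N) := {f | IsNewform f ∧ EvenFE f}

/-- The proportion of the `f ∈ H₂⁺(N)` with the property `P`. -/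
noncomputable def prop (N : ℕ) [Fact N.Prime] (P : S2 N → Prop) : ℝ :=
  ({f : S2 N | f ∈ H N ∧ P f}.ncard : ℝ) / ((H N).ncard : ℝ)

/-- `p_A(N)`: the proportion of the `f ∈ H₂⁺(N)` with `L(1/2, f) > (log N)^{-A}`. -/
noncomputable def pA (A : ℝ) (N : ℕ) [Fact N.Prime] : ℝ :=
  prop N fun f => Real.log N ^ (-A) < (L f 1).re

theorem H_eq (N : ℕ) [Fact N.Prime] : H N = LEV.HE N := by
  ext f
  constructor
  · rintro ⟨h, h'⟩
    exact ⟨⟨h.one, h.mul, h.hecke, h.level⟩, h'⟩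
  · rintro ⟨h, h'⟩
    exact ⟨⟨h.one, h.mul, h.hecke, h.level⟩, h'⟩

theorem H_finite (N : ℕ) [Fact N.Prime] : (H N).Finite := by
  rw [H_eq]
  exact LEV.HE_fin N

theorem H_pos : ∃ N₀ : ℕ, ∀ (N : ℕ) [Fact N.Prime], N₀ ≤ N → (0 : ℝ) < ((H N).ncard : ℝ) := by
  obtain ⟨N₀, h⟩ := LEV.even_low' (1 / 48) (by norm_num)
  refine ⟨N₀, fun N _ hN => ?_⟩
  have h1 := h N hN
  rw [H_eq]
  have h2 : (0 : ℝ) < N := by exact_mod_cast (Fact.out : N.Prime).pos
  linarith

theorem prop_mono {N : ℕ} [Fact N.Prime] {P Q : S2 N → Prop} (h : ∀ f ∈ H N, P f → Q f) :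
    prop N P ≤ prop N Q := by
  unfold prop
  apply div_le_div_of_nonneg_right _ (Nat.cast_nonneg _)
  norm_cast
  apply Set.ncard_le_ncard _ ((H_finite N).subset fun f hf => hf.1)
  rintro f ⟨h1, h2⟩
  exact ⟨h1, h f h1 h2⟩

/-- the lower bound for the proportion -/
theorem half_low (V : ℝ) {ε : ℝ} (hε : 0 < ε) : ∃ N₀ : ℕ, ∀ (N : ℕ) [Fact N.Prime], N₀ ≤ N →
    1 / 2 * (gaussianReal 0 1).real (Set.Ici V) - ε ≤
      prop N (fun f => Real.log N ^ (-(1 / 2) : ℝ) *
        Real.exp (V * Real.sqrt (Real.log (Real.log N))) ≤ (L f 1).re) := by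
  set e : ℝ := min ε 1 / 100 with he
  have he0 : 0 < e := by positivity
  have he1 : e ≤ ε / 100 := by
    have := min_le_left ε 1
    rw [he]; linarith
  have he2 : e ≤ 1 / 100 := by
    have := min_le_right ε 1
    rw [he]; linarith
  obtain ⟨N₁, h1⟩ := KSL.final_nat V he0
  obtain ⟨N₂, h2⟩ := LEV.even_up he0
  obtain ⟨N₃, h3⟩ := H_pos
  refine ⟨N₁ + N₂ + N₃ + 3, fun N _ hN => ?_⟩
  have h4 := h1 N (by omega)
  have h5 := h2 N (by omega)
  have h6 := h3 N (by omega)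
  have hN0 : (0 : ℝ) < N := by exact_mod_cast (Fact.out : N.Prime).pos
  have hlog : 0 < Real.log N := Real.log_pos (by exact_mod_cast (by omega : 1 < N))
  have hexp : Real.log N ^ (-(1 / 2) : ℝ) * Real.exp (V * Real.sqrt (Real.log (Real.log N))) =
      Real.exp (-Real.log (Real.log N) / 2 + V * Real.sqrt (Real.log (Real.log N))) := by
    rw [Real.exp_add, Real.rpow_def_of_pos hlog]
    congr 2
    ring
  have hN3 : 3 ≤ N := by omega
  have hset : {f : S2 N | f ∈ H N ∧ Real.log N ^ (-(1 / 2) : ℝ) *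
      Real.exp (V * Real.sqrt (Real.log (Real.log N))) ≤ (L f 1).re} =
      {f : S2 N | (LEV.IsNew f ∧ LEV.co f N = 1) ∧ Real.exp (-Real.log (Real.log N) / 2 +
        V * Real.sqrt (Real.log (Real.log N))) ≤ ‖LEV.Lh f‖} := by
    ext f
    rw [Set.mem_setOf_eq, Set.mem_setOf_eq, H_eq, LEV.HE_eq, hexp]
    refine and_congr_right fun h7 => ?_
    rw [LSP.Lh_norm hN3 h7.1 h7.2]
    rfl
  unfold prop
  rw [le_div_iff₀ h6, hset]
  set P : ℝ := (gaussianReal 0 1).real (Set.Ici V) with hP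
  have hP0 : 0 ≤ P := measureReal_nonneg
  have hP1 : P ≤ 1 := measureReal_le_one
  rw [← H_eq] at h5
  by_cases h7 : 1 / 2 * P - ε ≤ 0
  · have h8 : (1 / 2 * P - ε) * ((H N).ncard : ℝ) ≤ 0 :=
      mul_nonpos_of_nonpos_of_nonneg h7 h6.le
    exact h8.trans (Nat.cast_nonneg _)
  · push Not at h7
    have h8 : (1 / 2 * P - ε) * ((H N).ncard : ℝ) ≤ (1 / 2 * P - ε) * ((1 / 24 + e) * N) :=
      mul_le_mul_of_nonneg_left h5 h7.le
    have h9 : (1 / 2 * P - ε) * (1 / 24 + e) ≤ 1 / 24 * (1 / 2 * P - e) := by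
      nlinarith
    have h10 : (1 / 2 * P - ε) * ((1 / 24 + e) * N) ≤ (N : ℝ) / 24 * (1 / 2 * P - e) := by
      calc _ = ((1 / 2 * P - ε) * (1 / 24 + e)) * N := by ring
        _ ≤ (1 / 24 * (1 / 2 * P - e)) * N := mul_le_mul_of_nonneg_right h9 hN0.le
        _ = _ := by ring
    linarith

theorem result :
    (∀ V ε : ℝ, 0 < ε → ∃ N₀ : ℕ, ∀ (N : ℕ) [Fact N.Prime], N₀ ≤ N →
      1 / 2 * (gaussianReal 0 1).real (Set.Ici V) - ε ≤
        prop N (fun f => Real.log N ^ (-(1 / 2) : ℝ) *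
          Real.exp (V * Real.sqrt (Real.log (Real.log N))) ≤ (L f 1).re)) ∧
    (∀ A : ℝ, 1 / 2 < A → ∀ ε : ℝ, 0 < ε → ∃ N₀ : ℕ, ∀ (N : ℕ) [Fact N.Prime], N₀ ≤ N →
      1 / 2 - ε ≤ pA A N) ∧
    (∀ ε : ℝ, 0 < ε → ∃ N₀ : ℕ, ∀ (N : ℕ) [Fact N.Prime], N₀ ≤ N → 1 / 4 - ε ≤ pA (1 / 2) N) := by
  refine ⟨fun V ε hε => half_low V hε, ?_, ?_⟩
  · intro A hA ε hε
    obtain ⟨V, hV⟩ := LSP.gauss_low hε
    obtain ⟨N₁, h1⟩ := half_low V (half_pos hε)
    obtain ⟨N₂, h2⟩ := LSP.thr_low V hA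
    refine ⟨N₁ + N₂, fun N _ hN => ?_⟩
    have h3 := h1 N (by omega)
    have h4 := h2 N (by omega)
    have h5 : prop N (fun f => Real.log N ^ (-(1 / 2) : ℝ) *
        Real.exp (V * Real.sqrt (Real.log (Real.log N))) ≤ (L f 1).re) ≤ pA A N :=
      prop_mono fun f _ h => h4.trans_le h
    linarith
  · intro ε hε
    obtain ⟨V, hV0, hV⟩ := LSP.gauss_near hε
    obtain ⟨N₁, h1⟩ := half_low V (half_pos hε)
    have hll : Filter.Tendsto (fun N : ℕ => Real.log (Real.log (N : ℝ)))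
        Filter.atTop Filter.atTop :=
      Real.tendsto_log_atTop.comp (Real.tendsto_log_atTop.comp tendsto_natCast_atTop_atTop)
    obtain ⟨N₂, h2⟩ := Filter.eventually_atTop.mp (hll.eventually_gt_atTop 0)
    refine ⟨N₁ + N₂ + 3, fun N _ hN => ?_⟩
    have h3 := h1 N (by omega)
    have h4 := h2 N (by omega)
    have hlog : 0 < Real.log N := Real.log_pos (by exact_mod_cast (by omega : 1 < N))
    have h5 : prop N (fun f => Real.log N ^ (-(1 / 2) : ℝ) *
        Real.exp (V * Real.sqrt (Real.log (Real.log N))) ≤ (L f 1).re) ≤ pA (1 / 2) N := by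
      apply prop_mono
      intro f _ h
      refine lt_of_lt_of_le ?_ h
      have h6 : 0 < Real.log N ^ (-(1 / 2) : ℝ) := Real.rpow_pos_of_pos hlog _
      have h7 : 1 < Real.exp (V * Real.sqrt (Real.log (Real.log N))) :=
        Real.one_lt_exp_iff.mpr (mul_pos hV0 (Real.sqrt_pos.mpr h4))
      nlinarith
    linarith

end Pool.Agent.Results.MP_cc4f83_nt.HalfProportion
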