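import Pool.Agent.Lib_helper68.LEV.Fin2
import Pool.Agent.Lib_helper41.LVBF.NTB

/-!
# Central values of weight two newforms of prime level: a positive proportion beyond the threshold

Let `N` be a prime and `H₂⁺(N)` the set of normalised Hecke eigen-newforms `f` of weight `2` for
`Γ₀(N)` with even functional equation, counted with natural (equal) weights.  There is an absolute
constant `c > 0` such that for EVERY `A > 1/2` and all large primes `N` a proportion of at least
`c` of the central values `L(1/2, f)`, `f ∈ H₂⁺(N)`, is larger than `(log N)^{-A}`.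

The exponent is optimal: for `A < 1/2` almost all central values are at most `(log N)^{-A}`
(hand-in `CentralValueThreshold`).

Method: a positive mollifier of length a small power of `N` (a product of truncated exponentials
of the prime sums of blocks of primes), compared with the random Sato-Tate model through a sharp
large sieve inequality for newforms of prime level, which follows from the geometry of the two
cusps of `Γ₀(N)`; the Petersson trace formula is not used.

Authors of the blocks (team): helper3, helper5, helper8, helper13, helper14, helper16,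
helper21, helper22, helper24, helper29, helper32, helper33, helper35, helper41, helper50, helper79;
it builds on the library of the hand-in `CentralValueThreshold` (`Lib_helper68/LEV`).
-/

namespace Pool.Agent.Lib_helper41.Superseded.PositiveProportion

open Complex MeasureTheory ProbabilityTheory
open scoped MatrixGroups

/-- The space of cusp forms of weight `2` for `Γ₀(N)`. -/
abbrev S2 (N : ℕ) : Type :=
  CuspForm (CongruenceSubgroup.Gamma0 N : Subgroup (GL (Fin 2) ℝ)) 2

/-- The Fourier coefficients `a(n)`, `f(z) = ∑ a(n) e^{2πinz}`. -/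
noncomputable def coeff {N : ℕ} (f : S2 N) (n : ℕ) : ℂ := (UpperHalfPlane.qExpansion 1 f).coeff n

/-- `f` is a normalised Hecke eigen-newform of prime level `N` and weight `2`: `a(1) = 1` and the
coefficients satisfy all Hecke relations.  (All forms of prime level and weight `2` are new.) -/
structure IsNewform {N : ℕ} (f : S2 N) : Prop where
  one : coeff f 1 = 1
  mul : ∀ m n : ℕ, m.Coprime n → coeff f (m * n) = coeff f m * coeff f n
  hecke : ∀ p r : ℕ, p.Prime → p ≠ N →
    coeff f (p ^ (r + 2)) = coeff f p * coeff f (p ^ (r + 1)) - (p : ℂ) * coeff f (p ^ r)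
  level : ∀ r : ℕ, coeff f (N ^ (r + 1)) = coeff f N ^ (r + 1)

/-- The L-function `∑ a(n) n^{-s}` (Mathlib's entire continuation), classical normalisation: the
centre is `s = 1`, and `L(1/2, f)` in the analytic normalisation is `L f 1`. -/
noncomputable def L {N : ℕ} [Fact N.Prime] (f : S2 N) (s : ℂ) : ℂ :=
  ModularForm.L (k := 2) two_pos f s

/-- The completed L-function has the functional equation with sign `+1`. -/
def EvenFE {N : ℕ} [Fact N.Prime] (f : S2 N) : Prop := ∀ s : ℂ, 0 < s.re → s.re < 2 →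
  ((Real.sqrt N / (2 * Real.pi) : ℝ) : ℂ) ^ s * Complex.Gamma s * L f s =
    ((Real.sqrt N / (2 * Real.pi) : ℝ) : ℂ) ^ (2 - s) * Complex.Gamma (2 - s) * L f (2 - s)

/-- The set `H₂⁺(N)`. -/
def H (N : ℕ) [Fact N.Prime] : Set (S2 N) := {f | IsNewform f ∧ EvenFE f}

/-- The proportion of the `f ∈ H₂⁺(N)` with the property `P`. -/
noncomputable def prop (N : ℕ) [Fact N.Prime] (P : S2 N → Prop) : ℝ :=
  ({f : S2 N | f ∈ H N ∧ P f}.ncard : ℝ) / ((H N).ncard : ℝ)

/-- `p_A(N)`: the proportion of the `f ∈ H₂⁺(N)` with `L(1/2, f) > (log N)^{-A}`. -/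
noncomputable def pA (A : ℝ) (N : ℕ) [Fact N.Prime] : ℝ :=
  prop N fun f => Real.log N ^ (-A) < (L f 1).re

theorem H_eq (N : ℕ) [Fact N.Prime] : H N = LEV.HE N := by
  ext f
  constructor
  · rintro ⟨h, h'⟩
    exact ⟨⟨h.one, h.mul, h.hecke, h.level⟩, h'⟩
  · rintro ⟨h, h'⟩
    exact ⟨⟨h.one, h.mul, h.hecke, h.level⟩, h'⟩

theorem H_finite (N : ℕ) [Fact N.Prime] : (H N).Finite := by
  rw [H_eq]
  exact LEV.HE_fin N

theorem H_pos : ∃ N₀ : ℕ, ∀ (N : ℕ) [Fact N.Prime], N₀ ≤ N → (0 : ℝ) < ((H N).ncard : ℝ) := by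
  obtain ⟨N₀, h⟩ := LEV.even_low' (1 / 48) (by norm_num)
  refine ⟨N₀, fun N _ hN => ?_⟩
  have h1 := h N hN
  rw [H_eq]
  have h2 : (0 : ℝ) < N := by exact_mod_cast (Fact.out : N.Prime).pos
  linarith

theorem result :
    ∃ c : ℝ, 0 < c ∧ ∀ A : ℝ, 1 / 2 < A → ∃ N₀ : ℕ, ∀ (N : ℕ) [Fact N.Prime], N₀ ≤ N →
      c ≤ pA A N := by
  obtain ⟨c, hc, h⟩ := LVB.nat_lower
  refine ⟨12 * c, by positivity, fun A hA => ?_⟩
  obtain ⟨N₁, h1⟩ := h A hA
  obtain ⟨N₂, h2⟩ := LEV.even_up (ε := 1 / 24) (by norm_num)
  obtain ⟨N₃, h3⟩ := H_pos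
  refine ⟨max (max N₁ N₂) N₃, fun N _ hN => ?_⟩
  have h4 := h1 N (((le_max_left _ _).trans (le_max_left _ _)).trans hN)
  have h5 := h2 N (((le_max_right _ _).trans (le_max_left _ _)).trans hN)
  have h6 := h3 N ((le_max_right _ _).trans hN)
  rw [← H_eq] at h5
  have e : {f : S2 N | (LEV.IsNew f ∧ LEV.co f N = 1) ∧ Real.log N ^ (-A) < (LEV.Lh f).re} =
      {f : S2 N | f ∈ H N ∧ Real.log N ^ (-A) < (L f 1).re} := by
    rw [H_eq, LEV.HE_eq]
    rfl
  rw [e] at h4
  unfold pA prop
  rw [le_div_iff₀ h6]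
  calc 12 * c * ((H N).ncard : ℝ) ≤ 12 * c * ((1 / 24 + 1 / 24) * N) :=
        mul_le_mul_of_nonneg_left h5 (by positivity)
    _ = c * N := by ring
    _ ≤ _ := h4

end Pool.Agent.Lib_helper41.Superseded.PositiveProportion
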